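import Pool.Agent.Q201.PR.TropCycle
import Pool.Agent.Q65.PerRec8

/-!
# MP_975ca8_an: boundedness for `x_{n+1} = 1 / (B_n x_n + x_{n-l})` with periodic coefficients

All positive solutions are bounded if and only if the `k` equations for a positive solution of
period `k` have a positive solution; otherwise all positive solutions are unbounded. The equations
are then solved explicitly when `l` is congruent to `0`, `1`, `-1` or `-2` modulo `k`, so for all
`k ≤ 4` and all `l`.
-/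

set_option autoImplicit false

namespace Pool.Agent.Results.MP_975ca8_an.BoundednessCriterion

/-- `k` is the prime (least) period of the coefficients. -/
def IsPrimePeriod (B : ℕ → ℝ) (k : ℕ) : Prop :=
  0 < k ∧ (∀ n, B (n + k) = B n) ∧ ∀ p, 0 < p → (∀ n, B (n + p) = B n) → k ≤ p

/-- `x` is a positive solution of `x_{n+1} = 1 / (B_n x_n + x_{n-l})`; the index is shifted by `l`,
so `x 0, ..., x l` stand for `x_{-l}, ..., x_0`. -/
def IsPositiveSolution (l : ℕ) (B : ℕ → ℝ) (x : ℕ → ℝ) : Prop :=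
  (∀ i ≤ l, 0 < x i) ∧ ∀ n, x (n + l + 1) = 1 / (B n * x (n + l) + x n)

/-- The `k` equations `w_{n+l+1} (B_n w_{n+l} + w_n) = 1`, `0 ≤ n < k`, where the indices of `w` are
read modulo `k`, have a solution `w_0, ..., w_{k-1} > 0`. -/
def Solvable (k l : ℕ) (B : ℕ → ℝ) : Prop :=
  ∃ w : ℕ → ℝ, (∀ n, 0 < w n) ∧ (∀ n, w (n + k) = w n) ∧
    ∀ n < k, w (n + l + 1) * (B n * w (n + l) + w n) = 1

/-- The `k` linear equations `q_{n+1} = 1 - B_n q_n`, `0 ≤ n < k`, with indices modulo `k`, have a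
solution `q_0, ..., q_{k-1} > 0` with, if `k` is even, `q_0 q_2 ... q_{k-2} = q_1 q_3 ... q_{k-1}`. -/
def LinearSolvable (k : ℕ) (B : ℕ → ℝ) : Prop :=
  ∃ q : ℕ → ℝ, (∀ n, 0 < q n) ∧ (∀ n, q (n + k) = q n) ∧ (∀ n < k, q (n + 1) = 1 - B n * q n) ∧
    (Even k → ∏ i ∈ Finset.range (k / 2), q (2 * i) = ∏ i ∈ Finset.range (k / 2), q (2 * i + 1))

/-- An escape pattern: sets `P`, `Q` of residues modulo `k`, `P` nonempty, disjoint, such that a place
`n + l + 1` of `P` uses only places of `Q` and a place `n + l + 1` of `Q` uses a place of `P`; the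
place `n + l + 1` uses `n`, and `n + l` if `B_n > 0`. -/
def Escape (k l : ℕ) (B : ℕ → ℝ) : Prop :=
  ∃ P Q : ℕ → Prop, (∀ n, P (n + k) ↔ P n) ∧ (∀ n, Q (n + k) ↔ Q n) ∧ (∃ n, P n) ∧
    (∀ n, P n → ¬ Q n) ∧ (∀ n, P (n + l + 1) → Q n ∧ (0 < B n → Q (n + l))) ∧
    ∀ n, Q (n + l + 1) → P n ∨ (0 < B n ∧ P (n + l))

/-- A step of an itinerary `(n, Q, q)`. -/
noncomputable def step (B : ℕ → ℝ) (s : ℕ × ℝ × ℝ) : ℕ × ℝ × ℝ :=
  if 0 < B s.1 then (s.1 + 3, s.2.2, s.2.2 * (B s.1 / (1 + B s.1 * B (s.1 + 2))))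
  else (s.1 + 4, s.2.1, s.2.1 * (B (s.1 + 1) * s.2.1 + s.2.2) /
    (s.2.1 + B (s.1 + 3) * (B (s.1 + 1) * s.2.1 + s.2.2)))

/-- The condition for `l = 1`. -/
def Cond (k : ℕ) (B : ℕ → ℝ) : Prop :=
  (∀ n, (∀ j, B (n + 4 * j) = 0) → ∀ j, B (n + 4 * j + 2) = 0) ∧
  (∀ n, 0 < B n → ∀ m, 1 ≤ m → m ≤ k → ((step B)^[m] (n, 1, 1)).1 ≡ n [MOD k] →
    ((step B)^[m] (n, 1, 1)).2.2 < 1)

theorem lag_one {k : ℕ} (hk : 0 < k) {B : ℕ → ℝ} (hB : ∀ n, 0 ≤ B n)
    (hper : ∀ n, B (n + k) = B n) (hne : ∃ n, 0 < B n) : Solvable k 1 B ↔ Cond k B := by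
  have h1 : (∀ x, Q201.PR.LSol 1 B x → BddAbove (Set.range x)) ↔ Solvable k 1 B :=
    (Q201.PR.lag_main hk hB hper).1
  have h2 : Cond k B → ∀ x, Q65.PerRec.Sol B x → BddAbove (Set.range x) :=
    (Q65.PerRec.main hk hB hper hne).1
  have h3 : ¬ Cond k B → ∀ x, Q65.PerRec.Sol B x → ¬ BddAbove (Set.range x) :=
    (Q65.PerRec.main hk hB hper hne).2
  have h4 : ∀ x, Q201.PR.LSol 1 B x → Q65.PerRec.Sol B x := fun x hx =>
    ⟨hx.pos hB, fun n => hx.2 n⟩
  rw [← h1]
  constructor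
  · intro h
    by_contra hc
    obtain ⟨x, hx⟩ := Q201.PR.exists_lsol (l := 1) hB
    exact h3 hc x (h4 x hx) (h x hx)
  · intro h x hx
    exact h2 h x (h4 x hx)

/-- **All positive solutions are bounded if and only if the `k` equations are solvable in positive
numbers; otherwise all positive solutions are unbounded.** Solvability depends only on `l` modulo
`k`, holds if there is no escape pattern, and is made explicit for `l ≡ 0, 1, -1, -2` modulo `k`; in particular for `k = 2, 3, 4`. -/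
theorem result (k l : ℕ) (hk : 2 ≤ k) (_hl : 1 ≤ l) (B : ℕ → ℝ) (hB : ∀ n, 0 ≤ B n)
    (hper : IsPrimePeriod B k) :
    ((∀ x, IsPositiveSolution l B x → BddAbove (Set.range x)) ↔ Solvable k l B) ∧
    (¬ Solvable k l B → ∀ x, IsPositiveSolution l B x → ¬ BddAbove (Set.range x)) ∧
    (∀ m, l ≡ m [MOD k] → (Solvable k l B ↔ Solvable k m B)) ∧
    (¬ Escape k l B → Solvable k l B) ∧
    (k ∣ l → (Solvable k l B ↔ (Even k → ∏ i ∈ Finset.range (k / 2), (1 + B (2 * i)) =
      ∏ i ∈ Finset.range (k / 2), (1 + B (2 * i + 1))))) ∧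
    (l ≡ 1 [MOD k] → (Solvable k l B ↔ Cond k B)) ∧
    (k ∣ l + 1 → Solvable k l B) ∧
    (k ∣ l + 2 → (Solvable k l B ↔ LinearSolvable k B)) ∧
    (k = 2 → (Solvable k l B ↔ Odd l)) ∧
    (k = 3 → (Solvable k l B ↔ (l % 3 = 1 →
      0 < 1 - B 0 + B 0 * B 2 ∧ 0 < 1 - B 1 + B 1 * B 0 ∧ 0 < 1 - B 2 + B 2 * B 1))) := by
  obtain ⟨hk0, hp, hmin⟩ := hper
  have hne : ∃ n, 0 < B n := by
    by_contra hcon
    push Not at hcon
    have h0 : ∀ n, B n = 0 := fun n => le_antisymm (hcon n) (hB n)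
    have := hmin 1 one_pos (fun n => by rw [h0, h0])
    omega
  have e0 : ∀ m, Solvable k m B ↔ Q201.PR.Per k m B := fun m => Iff.rfl
  have z0 := Q201.PR.per_zero (l := l) hk0 hB hp
  have z1 := Q201.PR.per_neg_one (l := l) hk0 hB hp
  have z2 : k ∣ l + 2 → (Q201.PR.Per k l B ↔ Q201.PR.Lin k B) := Q201.PR.per_neg_two
  refine ⟨(Q201.PR.lag_main hk0 hB hp).1, (Q201.PR.lag_main hk0 hB hp).2,
    fun m hm => Q201.PR.per_lag hm, fun h => ?_, z0, fun h => ?_, z1, z2, ?_, ?_⟩
  · exact Q201.PR.perG_of_no_escape (c := l + 1) (b := l) hk0 hB hp h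
  · rw [← lag_one hk0 hB hp hne]
    exact Q201.PR.per_lag h
  · rintro rfl
    rcases Nat.even_or_odd l with he | ho
    · have h1 := z0 he.two_dvd
      rw [e0, h1]
      constructor
      · intro h
        exfalso
        have h2 := h (by decide)
        norm_num at h2
        have h3 : ∀ n, B (n + 1) = B n := by
          intro n
          have h4 : ∀ j, B (2 * j) = B 0 := by
            intro j
            have := Q201.PR.per_add_mul hp 0 j
            simpa using this
          have h5 : ∀ j, B (2 * j + 1) = B 1 := by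
            intro j
            have := Q201.PR.per_add_mul hp 1 j
            rwa [add_comm] at this
          rcases Nat.even_or_odd' n with ⟨j, rfl | rfl⟩
          · rw [h4, h5, h2]
          · rw [show 2 * j + 1 + 1 = 2 * (j + 1) by ring, h4, h5, h2]
        have := hmin 1 one_pos h3
        omega
      · intro h
        exact absurd h (Nat.not_odd_iff_even.mpr he)
    · refine iff_of_true (z1 ?_) ho
      exact ho.add_one.two_dvd
  · rintro rfl
    have h3 : l % 3 < 3 := Nat.mod_lt _ (by norm_num)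
    rcases (show l % 3 = 0 ∨ l % 3 = 1 ∨ l % 3 = 2 by omega) with h | h | h
    · refine iff_of_true ((z0 (by omega)).mpr fun he => absurd he (by decide)) ?_
      intro h'
      omega
    · rw [e0, z2 (by omega), Q201.PR.lin_three hB]
      constructor
      · rintro ⟨a, b, c⟩ _
        exact ⟨b, c, a⟩
      · intro h'
        obtain ⟨b, c, a⟩ := h' h
        exact ⟨a, b, c⟩
    · refine iff_of_true (z1 (by omega)) ?_
      intro h'
      omega

end Pool.Agent.Results.MP_975ca8_an.BoundednessCriterion
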